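import Pool.Agent.L0h23.FZ.Fld
import Pool.Agent.L0h23.FZ.Sha
import Pool.Agent.L0h23.FD.Fin
import Pool.Agent.L0h23.FR.Rec
import Pool.Agent.L0h80.F3.Hcd
import Pool.Agent.L0h61.T3.Lin
import Pool.Agent.L0h4.T4.Def

/-!
# The algebraic side for `y² = x³ - D³` over `ℚ`
-/

set_option autoImplicit false
set_option linter.unusedSectionVars false

namespace Pool.Agent.L0h23.FZE

open IsDedekindDomain NumberField
open Pool.Agent.L0h23.FZ hiding pf
open Pool.Agent.L0h23.FDE (cI Sys eD cI_cI cI_mem cj_cj' pf_cI D_ne sum_sub cr4_sys)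
open Pool.Agent.Y696 Pool.Agent.Y715.T.Lat Pool.Agent.W192.HK
open Pool.Agent.L0h86.F3
open Pool.Agent.Y698.SG (lg lg_one lg_neg_one ix mem_ix)
open Pool.Agent.TH841.NF.D (Sha)
open Pool.Agent.L0h4.T4 (WN)

lemma lg_sy {ϖ x : eis} (h : x ∉ sp ϖ) : lg (sy ϖ x) = ns x ϖ := by
  apply zmod2_eq
  rw [ns_iff]
  unfold sy
  rw [if_neg h]
  split_ifs with h1
  · exact ⟨fun _ => h1, fun _ => lg_one⟩
  · rw [lg_neg_one]
    exact ⟨fun h' => absurd h' one_ne_zero, fun h' => absurd h' h1⟩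

section main

variable {Q P : Finset ℕ} {ϖ : ℕ → eis}

/-- **the descent**, for a sign `s` -/
theorem fin_sysZ (hG : S_GEN) (hS : S_SUP) (h : Dt Q P ϖ) {D : ℕ} (hD : D = ∏ q ∈ Q ∪ P, q)
    {E : ℤ} {ε : ZMod 2} (hE : (E = D ∧ ε = eD D) ∨ (E = -D ∧ ε = eD D + 1))
    (hns : Sys Q P ϖ ε) :
    Finite (WY ℚ E).toAffine.Point ∧ ∀ (x : Sha (WY ℚ E)) (k : ℕ), 2 ^ k • x = 0 → x = 0 := by
  obtain ⟨hX, hprod, -⟩ := hG Q P ϖ D h hD
  obtain ⟨e, Φ, R, hΦ, hl⟩ := exists_R3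
  have hla : Φ (2 * e - 1) = la := by
    rw [map_sub, map_mul, map_one, hΦ, map_ofNat]
    unfold la ez
    push_cast
    ring
  have hpi : ∀ (i : {i // i ∈ ix Q P}) (x : 𝓞 FF), ns x (Φ.symm (pf Q ϖ i)) = ns (Φ x) (pf Q ϖ i) := by
    intro i x
    have := ns_equiv Φ x (Φ.symm (pf Q ϖ i))
    rw [Φ.apply_symm_apply] at this
    exact this.symm
  have hdv : ∀ x y : eis, Φ.symm x ∣ Φ.symm y ↔ y ∈ sp x := by
    intro x y
    rw [Ideal.mem_span_singleton]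
    exact map_dvd_iff Φ.symm
  have hdv2 : ∀ (x : 𝓞 FF) (y : eis), x ∣ Φ.symm y ↔ y ∈ sp (Φ x) := by
    intro x y
    rw [← hdv, Φ.symm_apply_apply]
  have hE0 : E ≠ 0 := by
    have := D_ne h hD
    rcases hE with h1 | h1 <;> omega
  have hFam : Fam e (fun i : {i // i ∈ ix Q P} => Φ.symm (pf Q ϖ i))
      (fun i => ⟨cI Q i, cI_mem i.2⟩) E ε := by
    refine ⟨hE0, fun i => ?_, fun i j hij => ?_, fun i => ?_, ?_, fun i => ?_, ?_⟩
    · exact (MulEquiv.prime_iff Φ.symm.toMulEquiv).2 (hX.pd i.1 i.2).pr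
    · rw [hdv]
      exact hX.ne j.1 j.2 i.1 i.2 fun h' => hij (Subtype.ext h'.symm)
    · obtain ⟨u, hu⟩ := (hX.pd i.1 i.2).n1
      have h1 : Φ.symm (pf Q ϖ i) - 1 = Φ.symm (pf Q ϖ i - 1) := by rw [map_sub, map_one]
      rw [h1, hdv2, hla, Ideal.mem_span_singleton]
      exact ⟨2 * u, by rw [hu]; ring⟩
    · apply Φ.injective
      rw [map_intCast, map_mul, map_pow, map_neg, map_one, map_prod]
      simp only [Φ.apply_symm_apply]
      rw [Finset.prod_coe_sort (ix Q P) (pf Q ϖ)]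
      rcases hprod with ⟨h1, h2⟩ | ⟨h1, h2⟩
      · rw [h1]
        rcases hE with ⟨rfl, rfl⟩ | ⟨rfl, rfl⟩
        · unfold eD
          rw [if_pos h2, ZMod.val_zero, pow_zero, one_mul]
          push_cast
          rfl
        · unfold eD
          rw [if_pos h2, zero_add, show ZMod.val (1 : ZMod 2) = 1 from rfl, pow_one]
          push_cast
          ring
      · rw [h1]
        rcases hE with ⟨rfl, rfl⟩ | ⟨rfl, rfl⟩
        · unfold eD
          rw [if_neg (by omega), show ZMod.val (1 : ZMod 2) = 1 from rfl, pow_one]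
          push_cast
          ring
        · unfold eD
          rw [if_neg (by omega), show ((1 : ZMod 2) + 1) = 0 from rfl, ZMod.val_zero, pow_zero,
            one_mul]
          push_cast
          ring
    · exact Subtype.ext (cI_cI _)
    · refine ⟨(Φ.trans cjE).trans Φ.symm, ?_, fun i => ?_⟩
      · apply Φ.injective
        show Φ (Φ.symm (cjE (Φ e))) = _
        rw [Φ.apply_symm_apply, hΦ, map_add, map_one, cjE_om, map_sub, map_one, hΦ]
        ring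
      · apply Φ.injective
        show _ = Φ (Φ.symm (cjE (Φ (Φ.symm (pf Q ϖ i)))))
        rw [Φ.apply_symm_apply, Φ.apply_symm_apply, Φ.apply_symm_apply]
        exact pf_cI _
  have hNS : NSF e (fun i : {i // i ∈ ix Q P} => Φ.symm (pf Q ϖ i))
      (fun i => ⟨cI Q i, cI_mem i.2⟩) ε := by
    intro x hx j
    obtain ⟨X, hXd⟩ : ∃ X : ℕ × Bool → ZMod 2,
        X = fun i => if hi : i ∈ ix Q P then x ⟨i, hi⟩ else 0 := ⟨_, rfl⟩
    have hXv : ∀ i : {i // i ∈ ix Q P}, X i = x i := by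
      intro i
      rw [hXd]
      exact dif_pos i.2
    have hm : ∀ i j : {i // i ∈ ix Q P}, i ≠ j → ns (Φ.symm (pf Q ϖ i)) (Φ.symm (pf Q ϖ j)) =
        mm (pf Q ϖ) i j := by
      intro i j hij
      rw [hpi, Φ.apply_symm_apply]
      exact (lg_sy (hX.ne i.1 i.2 j.1 j.2 fun h' => hij (Subtype.ext h'))).symm
    have key := hns X (fun j hj => by
      have h1 := hx ⟨j, hj⟩
      have hnn : ns (-1) (Φ.symm (pf Q ϖ j)) = F4.tr (bt (pf Q ϖ j)) := by
        have h2 := hpi ⟨j, hj⟩ (-1)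
        rw [map_neg, map_one] at h2
        rw [h2, ← (hS _ (hX.pd j hj)).1]
        refine (lg_sy fun h3 => ?_).symm
        apply (hX.pd j hj).pr.not_isUnit
        rw [Ideal.mem_span_singleton, dvd_neg] at h3
        exact isUnit_of_dvd_one h3
      have hrr : ns (2 * e - 1) (Φ.symm (pf Q ϖ j)) = F4.tr (F4.w * bt (pf Q ϖ j)) := by
        have h2 := hpi ⟨j, hj⟩ (2 * e - 1)
        rw [hla] at h2
        rw [h2, ← (hS _ (hX.pd j hj)).2]
        refine (lg_sy fun h3 => ?_).symm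
        have h4 := (FZ.pf R hFam).nd (some ⟨j, hj⟩) none (by simp)
        apply h4
        show Φ.symm (pf Q ϖ j) ∣ 2 * e - 1
        rw [← Φ.symm_apply_apply (2 * e - 1), hdv, hla]
        exact h3
      have hs1 : ∑ i ∈ (ix Q P).erase j, mm (pf Q ϖ) i j * X i =
          ∑ i ∈ (Finset.univ : Finset (ix Q P)).erase ⟨j, hj⟩,
            ns (Φ.symm (pf Q ϖ i)) (Φ.symm (pf Q ϖ j)) * x i := by
        rw [← sum_sub (ix Q P) ⟨j, hj⟩ fun i => mm (pf Q ϖ) i j * X i]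
        refine Finset.sum_congr rfl fun i hi => ?_
        rw [hXv, hm i ⟨j, hj⟩ (Finset.ne_of_mem_erase hi)]
      have hs2 : ∑ i ∈ (ix Q P).erase j, mm (pf Q ϖ) i j =
          ∑ i ∈ (Finset.univ : Finset (ix Q P)).erase ⟨j, hj⟩,
            ns (Φ.symm (pf Q ϖ i)) (Φ.symm (pf Q ϖ j)) := by
        rw [← sum_sub (ix Q P) ⟨j, hj⟩ fun i => mm (pf Q ϖ) i j]
        refine Finset.sum_congr rfl fun i hi => ?_
        rw [hm i ⟨j, hj⟩ (Finset.ne_of_mem_erase hi)]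
      have hX1 : X j = x ⟨j, hj⟩ := hXv ⟨j, hj⟩
      have hX2 : X (cI Q j) = x ⟨cI Q j, cI_mem hj⟩ := hXv ⟨cI Q j, cI_mem hj⟩
      rw [hs1, hs2, hX1, hX2, ← hnn, ← hrr]
      unfold dg at h1
      linear_combination h1) j.1 j.2
    rw [hXv] at key
    exact key
  have hMY := myY R hFam hl hNS
  refine ⟨mw_finiteY (hbF R) hMY, fun x k hx => ?_⟩
  exact sha_powY (hbF R) (fun x => by
    obtain ⟨u, v, h⟩ := R.hF x
    exact ⟨u, v, by rw [h]; simp⟩) hMY x k hx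

lemma WY_neg (D : ℕ) : WY ℚ (-(D : ℤ)) = WN ℚ D := by
  unfold WY WN
  congr 1
  push_cast
  ring

lemma tr_cj : ∀ b : F4, F4.tr (F4.w * F4.cj b) = F4.tr (F4.w * b) + F4.tr b := by decide

/-- the shift of the sign -/
theorem sys_shift (h : Dt Q P ϖ) {D : ℕ} (hD : D = ∏ q ∈ Q ∪ P, q) {ε : ZMod 2}
    (hs : Sys Q P ϖ ε) : Sys Q P ϖ (ε + 1) := by
  obtain ⟨hX, -, -, hsy, hbt, -⟩ := Pool.Agent.L0h80.F3.t_GEN Q P ϖ D h hD
  intro x hx
  have hbc : ∀ j ∈ ix Q P, bt (pf Q ϖ (cI Q j)) = F4.cj (bt (pf Q ϖ j)) := fun j hj => by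
    rw [pf_cI]
    exact hbt _ (hX.pd j hj).n1
  have hmm : ∀ i j : ℕ × Bool, mm (pf Q ϖ) (cI Q i) (cI Q j) = mm (pf Q ϖ) i j := fun i j => by
    unfold mm
    rw [pf_cI, pf_cI, hsy]
  have hre : ∀ (j : ℕ × Bool), j ∈ ix Q P → ∀ f : ℕ × Bool → ZMod 2,
      ∑ i ∈ (ix Q P).erase (cI Q j), f i = ∑ i ∈ (ix Q P).erase j, f (cI Q i) := by
    intro j hj f
    refine Finset.sum_nbij' (cI Q) (cI Q) ?_ ?_ ?_ ?_ ?_
    · intro i hi
      rw [Finset.mem_erase] at hi ⊢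
      refine ⟨fun h' => hi.1 ?_, cI_mem hi.2⟩
      rw [← h', cI_cI]
    · intro i hi
      rw [Finset.mem_erase] at hi ⊢
      refine ⟨fun h' => hi.1 ?_, cI_mem hi.2⟩
      have := congrArg (cI Q) h'
      rwa [cI_cI, cI_cI] at this
    · intro i _
      exact cI_cI i
    · intro i _
      exact cI_cI i
    · intro i _
      rw [cI_cI]
  have key := hs (fun i => x (cI Q i)) (fun j hj => by
    have h1 := hx (cI Q j) (cI_mem hj)
    rw [hre j hj, hre j hj, hbc j hj, cI_cI] at h1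
    simp only [hmm] at h1
    have e1 := tr_cj (bt (pf Q ϖ j))
    have e2 : F4.tr (F4.cj (bt (pf Q ϖ j))) = F4.tr (bt (pf Q ϖ j)) := rfl
    rw [e1, e2] at h1
    show ∑ i ∈ (ix Q P).erase j, mm (pf Q ϖ) i j * x (cI Q i) + _ * x (cI Q j) +
      _ * x (cI Q (cI Q j)) = 0
    rw [cI_cI]
    have two : ∀ t : ZMod 2, t + t = 0 := by decide
    linear_combination h1 - x (cI Q j) * two (F4.tr (bt (pf Q ϖ j))))
  intro i hi
  have := key (cI Q i) (cI_mem hi)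
  simpa only [cI_cI] using this

end main

/-- **N5: the descent** -/
theorem t_DESN : Pool.Agent.L0h4.T4.S_DESN := by
  intro Q P ϖ D h hD h4 hc
  have hs := (cr4_sys Pool.Agent.L0h80.F3.t_GEN Pool.Agent.L0h23.FR.t_REC
    Pool.Agent.L0h61.T3.t_LIN h hD h4).1 hc
  have h1 := fin_sysZ Pool.Agent.L0h80.F3.t_GEN Pool.Agent.L0h23.FR.t_SUP h hD
    (E := -(D : ℤ)) (ε := eD D + 1) (Or.inr ⟨rfl, rfl⟩) (sys_shift h hD hs)
  rw [WY_neg] at h1
  exact h1

end Pool.Agent.L0h23.FZE
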