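import Mathlib

/-!
# Linear algebra: from the pairs of classes to the system over the two elements field
-/

set_option autoImplicit false

namespace Pool.Agent.L0h23.FZ

open Finset

section
variable {ι : Type} [Fintype ι] [DecidableEq ι]

/-- the diagonal coefficient: the symbol of `D √-3 / π j` at `π j` -/
def dg (m : ι → ι → ZMod 2) (n r : ι → ZMod 2) (ε : ZMod 2) (j : ι) : ZMod 2 :=
  ε * n j + r j + ∑ i ∈ univ.erase j, m i j

/-- the system has only the zero solution -/
def NSys (m : ι → ι → ZMod 2) (n r : ι → ZMod 2) (c : ι → ι) (ε : ZMod 2) : Prop :=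
  ∀ x : ι → ZMod 2, (∀ j, ∑ i ∈ univ.erase j, m i j * x i + x j * dg m n r ε j + n j * x (c j) = 0) →
    ∀ j, x j = 0

/-- the coefficients and the complex conjugation -/
structure Cj (m : ι → ι → ZMod 2) (n r : ι → ZMod 2) (c : ι → ι) : Prop where
  cc : ∀ i, c (c i) = i
  hm : ∀ i j, i ≠ j → m (c i) (c j) = m i j
  hn : ∀ j, n (c j) = n j
  hr : ∀ j, r (c j) = r j + n j

variable {m : ι → ι → ZMod 2} {n r : ι → ZMod 2} {c : ι → ι} {ε : ZMod 2}

lemma two_eq (a : ZMod 2) : a + a = 0 := by
  revert a; decide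

lemma Cj.sum (h : Cj m n r c) (f : ι → ZMod 2) (j : ι) :
    ∑ i ∈ univ.erase (c j), m i (c j) * f i = ∑ i ∈ univ.erase j, m i j * f (c i) := by
  refine (Finset.sum_bij (fun i _ => c i) ?_ ?_ ?_ ?_).symm
  · intro i hi
    rw [mem_erase] at hi ⊢
    refine ⟨fun h1 => hi.1 ?_, mem_univ _⟩
    rw [← h.cc i, h1, h.cc]
  · intro i _ i' _ h1
    rw [← h.cc i, h1, h.cc]
  · intro i hi
    rw [mem_erase] at hi
    refine ⟨c i, ?_, h.cc i⟩
    rw [mem_erase]
    refine ⟨fun h1 => hi.1 ?_, mem_univ _⟩
    rw [← h1, h.cc]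
  · intro i hi
    rw [mem_erase] at hi
    rw [h.hm i j hi.1]

lemma Cj.sum1 (h : Cj m n r c) (j : ι) :
    ∑ i ∈ univ.erase (c j), m i (c j) = ∑ i ∈ univ.erase j, m i j := by
  have := h.sum (fun _ => 1) j
  simpa using this

lemma Cj.dg (h : Cj m n r c) (j : ι) : dg m n r ε (c j) = dg m n r ε j + n j := by
  unfold FZ.dg
  rw [h.hn, h.hr, h.sum1]
  ring

/-- from the pairs to the system -/
theorem pair_zero (h : Cj m n r c) (hns : NSys m n r c ε) (x y : ι → ZMod 2)
    (hA : ∀ j, ∑ i ∈ univ.erase j, m i j * x i + x j * (dg m n r ε j + n j) + n j * y j = 0)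
    (hB : ∀ j, ∑ i ∈ univ.erase j, m i j * y i + y j * dg m n r ε j + n j * x j = 0) :
    ∀ j, x j = 0 ∧ y j = 0 := by
  have key : ∀ x y : ι → ZMod 2,
      (∀ j, ∑ i ∈ univ.erase j, m i j * x i + x j * (dg m n r ε j + n j) + n j * y j = 0) →
      (∀ j, ∑ i ∈ univ.erase j, m i j * y i + y j * dg m n r ε j + n j * x j = 0) →
      ∀ j, y j + x (c j) = 0 := by
    intro x y hA hB
    apply hns (fun j => y j + x (c j))
    intro j
    have h1 := hB j
    have h2 := hA (c j)
    rw [h.sum, h.dg, h.hn] at h2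
    have e : ∑ i ∈ univ.erase j, m i j * (y i + x (c i)) =
        ∑ i ∈ univ.erase j, m i j * y i + ∑ i ∈ univ.erase j, m i j * x (c i) := by
      rw [← sum_add_distrib]
      exact sum_congr rfl fun i _ => mul_add _ _ _
    rw [e, h.cc]
    linear_combination h1 + h2 - two_eq (n j * x (c j))
  have k1 := key x y hA hB
  have k2 := key y (fun j => x j + y j) (fun j => by
      have h1 := hB j
      linear_combination h1 + two_eq (n j * y j)) (fun j => by
      have h1 := hA j
      have h2 := hB j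
      have e : ∑ i ∈ univ.erase j, m i j * (x i + y i) =
          ∑ i ∈ univ.erase j, m i j * x i + ∑ i ∈ univ.erase j, m i j * y i := by
        rw [← sum_add_distrib]
        exact sum_congr rfl fun i _ => mul_add _ _ _
      rw [e]
      linear_combination h1 + h2 - two_eq (n j * x j))
  intro j
  have e1 := k1 j
  have e2 := k2 j
  have e3 := k1 (c j)
  rw [h.cc] at e3
  have hy : y j = 0 := by
    -- `x j + y j + y (c j) = 0`, `y (c j) + x j = 0`
    linear_combination e2 - e3
  refine ⟨?_, hy⟩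
  have e4 := k1 (c j)
  have e5 := k2 (c j)
  rw [h.cc] at e4 e5
  have hyc : y (c j) = 0 := by
    linear_combination e5 - e1
  linear_combination e4 - hyc

/-- the pairs of classes with the signs and the exponents of `√-3` -/
theorem pair_gen (h : Cj m n r c) (hns : NSys m n r c ε) (sA tA sB tB : ZMod 2)
    (x y : ι → ZMod 2) (h3A : sA + tA * (ε + 1) + tB = 0) (h3B : sB + tB * ε + tA = 0)
    (hA : ∀ j, sA * n j + tA * r j + ∑ i ∈ univ.erase j, m i j * x i +
      x j * (dg m n r ε j + n j) + n j * y j = 0)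
    (hB : ∀ j, sB * n j + tB * r j + ∑ i ∈ univ.erase j, m i j * y i +
      y j * dg m n r ε j + n j * x j = 0) :
    ∀ j, x j = tA ∧ y j = tB := by
  have e0 : ∀ (f : ι → ZMod 2) (t : ZMod 2) (j : ι), ∑ i ∈ univ.erase j, m i j * (f i + t) =
      ∑ i ∈ univ.erase j, m i j * f i + t * ∑ i ∈ univ.erase j, m i j := by
    intro f t j
    rw [mul_sum, ← sum_add_distrib]
    exact sum_congr rfl fun i _ => by ring
  have key := pair_zero h hns (fun i => x i + tA) (fun i => y i + tB) (fun j => by
      have h1 := hA j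
      rw [e0]
      have hd : dg m n r ε j = ε * n j + r j + ∑ i ∈ univ.erase j, m i j := rfl
      linear_combination h1 + tA * hd + n j * h3A - two_eq (sA * n j) +
        tA * two_eq (∑ i ∈ univ.erase j, m i j))
    (fun j => by
      have h1 := hB j
      rw [e0]
      have hd : dg m n r ε j = ε * n j + r j + ∑ i ∈ univ.erase j, m i j := rfl
      linear_combination h1 + tB * hd + n j * h3B - two_eq (sB * n j) +
        tB * two_eq (∑ i ∈ univ.erase j, m i j))
  intro j
  obtain ⟨k1, k2⟩ := key j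
  exact ⟨by linear_combination k1 - two_eq tA, by linear_combination k2 - two_eq tB⟩

end

end Pool.Agent.L0h23.FZ
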