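import Pool.Agent.L0h23.FZ.Glb
import Pool.Agent.L0h23.FZ.Lin

/-!
# The main step of the descent for `y² = x³ + D³`
-/

set_option autoImplicit false
set_option linter.unusedSectionVars false

attribute [-instance] DivisionRing.toRatAlgebra

namespace Pool.Agent.L0h23.FZ

open Pool.Agent.Y698 hiding Sgn
open IsDedekindDomain NumberField WithZero
open Finset

/-- the ring of integers of `ℚ(√-3)`, with `e² = e - 1` -/
structure R3 (F : Type) [Field F] [NumberField F] (e : 𝓞 F) : Prop where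
  he : e ^ 2 = e - 1
  pid : IsPrincipalIdealRing (𝓞 F)
  hu : ∀ u : 𝓞 F, IsUnit u → ∃ v : 𝓞 F, IsUnit v ∧ (u = v ^ 2 ∨ u = -v ^ 2)
  lp : Prime (2 * e - 1)
  hF : ∀ x : F, ∃ u v : ℚ, x = u + v * algebraMap (𝓞 F) F e

/-- the family of the prime elements dividing `D` -/
structure Fam {F : Type} [Field F] [NumberField F] (e : 𝓞 F) {ι : Type} [Fintype ι] [DecidableEq ι]
    (π : ι → 𝓞 F) (c : ι → ι) (D : ℤ) (ε : ZMod 2) : Prop where
  D0 : D ≠ 0
  pr : ∀ i, Prime (π i)
  nd : ∀ i j, i ≠ j → ¬ π i ∣ π j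
  n1 : ∀ i, (2 * e - 1) ∣ π i - 1
  prod : (D : 𝓞 F) = (-1) ^ ε.val * ∏ i, π i
  cc : ∀ i, c (c i) = i
  cj : ∃ σ : 𝓞 F ≃+* 𝓞 F, σ e = 1 - e ∧ ∀ i, π (c i) = σ (π i)

/-- the family with `√-3` -/
def rh {A : Type*} [CommRing A] {ι : Type} (e : A) (π : ι → A) : Option ι → A :=
  fun o => o.elim (2 * e - 1) π

/-- the condition on `D` -/
def NSF {A : Type*} [CommRing A] {ι : Type} [Fintype ι] [DecidableEq ι] (e : A)
    (π : ι → A) (c : ι → ι) (ε : ZMod 2) : Prop :=
  NSys (fun i j => ns (π i) (π j)) (fun j => ns (-1) (π j)) (fun j => ns (2 * e - 1) (π j)) c ε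

lemma ns_equiv {A B : Type*} [CommRing A] [CommRing B] (σ : A ≃+* B) (x y : A) :
    ns (σ x) (σ y) = ns x y := by
  apply zmod2_eq
  rw [ns_eq_zero, ns_eq_zero]
  constructor
  · rintro ⟨z, w, hw⟩
    refine ⟨σ.symm z, σ.symm w, σ.injective ?_⟩
    rw [map_sub, map_pow, map_mul, σ.apply_symm_apply, σ.apply_symm_apply]
    exact hw
  · rintro ⟨z, w, hw⟩
    refine ⟨σ z, σ w, ?_⟩
    rw [← map_pow, ← map_sub, ← map_mul, hw]

section main

variable {F : Type} [Field F] [NumberField F] {e : 𝓞 F} (R : R3 F e) {ι : Type} [Fintype ι]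
  [DecidableEq ι] {π : ι → 𝓞 F} {c : ι → ι} {D : ℤ} {ε : ZMod 2} (h : Fam e π c D ε)

include R h

lemma nd_l (i : ι) : ¬ (2 * e - 1) ∣ π i := by
  intro h0
  apply R.lp.not_isUnit
  apply isUnit_of_dvd_one
  have h1 := dvd_sub h0 (h.n1 i)
  rwa [sub_sub_cancel] at h1

lemma pf : PF (rh e π) where
  pr := by
    rintro (_ | i)
    · exact R.lp
    · exact h.pr i
  nd := by
    rintro (_ | i) (_ | j) hij
    · exact absurd rfl hij
    · exact nd_l R h j
    · intro h0
      exact nd_l R h i (((h.pr i).associated_of_dvd R.lp h0).symm.dvd)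
    · exact h.nd i j (fun h1 => hij (by rw [h1]))

/-- the symbols and the complex conjugation -/
lemma cjF : Cj (fun i j => ns (π i) (π j)) (fun j => ns (-1) (π j))
    (fun j => ns (2 * e - 1) (π j)) c := by
  obtain ⟨σ, hσ, hc⟩ := h.cj
  refine ⟨h.cc, fun i j _ => ?_, fun j => ?_, fun j => ?_⟩
  · show ns (π (c i)) (π (c j)) = ns (π i) (π j)
    rw [hc, hc, ns_equiv]
  · show ns (-1) (π (c j)) = ns (-1) (π j)
    rw [hc, ← ns_equiv σ (-1) (π j), map_neg, map_one]
  · show ns (2 * e - 1) (π (c j)) = ns (2 * e - 1) (π j) + ns (-1) (π j)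
    have e1 : (2 * e - 1 : 𝓞 F) = σ (-1 * (2 * e - 1)) := by
      rw [map_mul, map_neg, map_one, map_sub, map_mul, map_one, map_ofNat, hσ]
      ring
    have hl : ¬ π j ∣ (2 * e - 1) := (pf R h).nd (some j) none (by simp)
    have h1 : ¬ π j ∣ (-1 : 𝓞 F) := fun h0 =>
      (h.pr j).not_isUnit (isUnit_of_dvd_unit h0 isUnit_one.neg)
    rw [hc]
    conv_lhs => rw [e1]
    rw [ns_equiv, nsm (h.pr j) h1 hl, add_comm]

/-- the class of the rational point of order two -/
lemma delta_gg : gg (rh e π) ε 1 = (D : 𝓞 F) * (2 * e - 1) := by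
  unfold gg rh
  rw [h.prod, Fintype.prod_option]
  simp only [Pi.one_apply, show ZMod.val (1 : ZMod 2) = 1 from rfl, pow_one, Option.elim_none,
    Option.elim_some]
  ring

/-- `-1` is not a square modulo `√-3` -/
lemma neg_one_l (hl : ns (-1) (2 * e - 1) = 1) (s : ZMod 2) (x : Option ι → ZMod 2) :
    EQ (rh e π) s x none = s := by
  unfold EQ
  have e1 : ∑ i ∈ univ.erase none, Ms (rh e π) i none * x i = 0 := by
    refine Finset.sum_eq_zero fun o ho => ?_
    rcases o with _ | i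
    · exact absurd rfl (ne_of_mem_erase ho)
    · have : Ms (rh e π) (some i) none = 0 := by
        show ns (π i) (2 * e - 1) = 0
        rw [ns_congr (h.n1 i), ns_one]
      rw [this, zero_mul]
  rw [e1, add_zero]
  show s * ns (-1) (2 * e - 1) = s
  rw [hl, mul_one]

lemma EQ_some (s : ZMod 2) (x : Option ι → ZMod 2) (j : ι) :
    EQ (rh e π) s x (some j) = s * ns (-1) (π j) + x none * ns (2 * e - 1) (π j) +
      ∑ i ∈ univ.erase j, ns (π i) (π j) * x (some i) := by
  unfold EQ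
  have e1 : (univ.erase (some j) : Finset (Option ι)) =
      insert none ((univ.erase j).map Function.Embedding.some) := by
    ext o
    rcases o with _ | i
    · simp
    · simp
  rw [e1, Finset.sum_insert (by simp), Finset.sum_map]
  show s * ns (-1) (π j) + (ns (2 * e - 1) (π j) * x none +
    ∑ i ∈ univ.erase j, ns (π i) (π j) * x (some i)) = _
  ring

end main

section TPg
variable {F : Type} [Field F] [NumberField F] [IsPrincipalIdealRing (𝓞 F)]
  {κ : Type} [Fintype κ] [DecidableEq κ] {ρ : κ → 𝓞 F}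

/-- the equations at a place of the family -/
theorem eqs (h : PF ρ) (k : κ) {ε sA sB : ZMod 2} {xA xB : κ → ZMod 2} {δ qA qB : F}
    (hδ : δ = algebraMap (𝓞 F) F (gg ρ ε 1)) (hA : SqE qA (algebraMap (𝓞 F) F (gg ρ sA xA)))
    (hB : SqE qB (algebraMap (𝓞 F) F (gg ρ sB xB)))
    (hT : TP ((plc (h.pr k)).valuation F) δ qA qB) :
    EQ ρ sA xA k + xA k * (EQ ρ ε 1 k + ns (-1) (ρ k)) + ns (-1) (ρ k) * xB k = 0 ∧
    EQ ρ sB xB k + xB k * EQ ρ ε 1 k + ns (-1) (ρ k) * xA k = 0 := by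
  obtain ⟨w, hw⟩ : ∃ w, w = (plc (h.pr k)).valuation F := ⟨_, rfl⟩
  rw [← hw] at hT
  -- a class times a global class
  have key : ∀ {c q : F} {t s : ZMod 2} {y x : κ → ZMod 2}, SqE c (algebraMap (𝓞 F) F (gg ρ t y)) →
      SqE q (algebraMap (𝓞 F) F (gg ρ s x)) → Sq w (c * q) →
      y k + x k = 0 ∧ EQ ρ t y k + EQ ρ s x k = 0 := by
    intro c q t s y x hc hq hs
    have h1 : Sq w (algebraMap (𝓞 F) F (gg ρ (t + s) (y + x))) := by
      refine hs.sqE ?_
      exact ((hc.mul hq).trans (gg_sqE h t s y x)).symm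
    rw [hw] at h1
    obtain ⟨h2, h3⟩ := sq_gg h k _ _ h1
    rw [EQ_add] at h3
    exact ⟨h2, h3⟩
  have c0 : SqE (1 : F) (algebraMap (𝓞 F) F (gg ρ 0 0)) := by
    rw [gg_zero, map_one]; exact SqE.refl _
  have c1 : SqE (-1 : F) (algebraMap (𝓞 F) F (gg ρ 1 0)) := by
    rw [gg_neg, show ZMod.val (1 : ZMod 2) = 1 from rfl, pow_one, map_neg, map_one]
    exact SqE.refl _
  have cδ : SqE δ (algebraMap (𝓞 F) F (gg ρ ε 1)) := by rw [hδ]; exact SqE.refl _
  have cn : SqE (-δ) (algebraMap (𝓞 F) F (gg ρ (1 + ε) (0 + 1))) := by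
    have := (c1.mul cδ).trans (gg_sqE h 1 ε 0 1)
    rwa [neg_one_mul] at this
  have E0 : EQ ρ 0 0 k = 0 := by
    unfold EQ
    simp
  have E1 : EQ ρ 1 0 k = ns (-1) (ρ k) := by
    unfold EQ
    simp
  have En : EQ ρ (1 + ε) (0 + 1) k = ns (-1) (ρ k) + EQ ρ ε 1 k := by
    rw [EQ_add, E1]
  have one : ∀ (t : κ → ZMod 2), (1 : κ → ZMod 2) k + t k = 0 → t k = 1 := by
    intro t ht
    rw [Pi.one_apply] at ht
    linear_combination ht - two_eq (1 : ZMod 2)
  have one' : ∀ (t : κ → ZMod 2), ((0 : κ → ZMod 2) + 1) k + t k = 0 → t k = 1 := by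
    intro t ht
    rw [zero_add] at ht
    exact one t ht
  have zer : ∀ (t : κ → ZMod 2), (0 : κ → ZMod 2) k + t k = 0 → t k = 0 := by
    intro t ht
    rwa [Pi.zero_apply, zero_add] at ht
  have n0 := two_eq (ns (-1) (ρ k))
  rcases hT with ⟨a, b⟩ | ⟨a, b⟩ | ⟨a, b⟩ | ⟨a, b⟩
  · rw [← one_mul qA] at a
    rw [← one_mul qB] at b
    obtain ⟨a1, a2⟩ := key c0 hA a
    obtain ⟨b1, b2⟩ := key c0 hB b
    rw [zer _ a1, zer _ b1]
    rw [E0] at a2 b2
    exact ⟨by linear_combination a2, by linear_combination b2⟩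
  · obtain ⟨a1, a2⟩ := key cδ hA a
    obtain ⟨b1, b2⟩ := key cn hB b
    rw [one _ a1, one' _ b1]
    rw [En] at b2
    exact ⟨by linear_combination a2 + n0, by linear_combination b2⟩
  · rw [← neg_one_mul] at a
    obtain ⟨a1, a2⟩ := key c1 hA a
    obtain ⟨b1, b2⟩ := key cδ hB b
    rw [zer _ a1, one _ b1]
    rw [E1] at a2
    exact ⟨by linear_combination a2, by linear_combination b2⟩
  · rw [← neg_one_mul qB] at b
    obtain ⟨a1, a2⟩ := key cn hA a
    obtain ⟨b1, b2⟩ := key c1 hB b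
    rw [one' _ a1, zer _ b1]
    rw [En] at a2
    rw [E1] at b2
    exact ⟨by linear_combination a2, by linear_combination b2⟩

end TPg

section mainthm

variable {F : Type} [Field F] [NumberField F] {e : 𝓞 F} (R : R3 F e) {ι : Type} [Fintype ι]
  [DecidableEq ι] {π : ι → 𝓞 F} {c : ι → ι} {D : ℤ} {ε : ZMod 2} (h : Fam e π c D ε)

include R

lemma hbF : (algebraMap (𝓞 F) F e) ^ 2 = algebraMap (𝓞 F) F e - 1 := by
  rw [← map_pow, R.he, map_sub, map_one]

/-- `-1` is not a square modulo `√-3` -/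
lemma ns_neg_l (hrep : ∀ x : 𝓞 F, ∃ u v : ℤ, x = u + v * e) : ns (-1) (2 * e - 1) = 1 := by
  rcases zmod2_cases (ns (-1) (2 * e - 1)) with h0 | h1
  swap
  · exact h1
  exfalso
  obtain ⟨z, hz⟩ := ns_eq_zero.1 h0
  obtain ⟨u, v, rfl⟩ := hrep z
  -- modulo `√-3`: `e ≡ -1`
  have e1 : (2 * e - 1 : 𝓞 F) ∣ e + 1 := ⟨1 - e, by linear_combination (2 : 𝓞 F) * R.he⟩
  have h3 : (2 * e - 1 : 𝓞 F) ∣ 3 := ⟨-(2 * e - 1), by linear_combination (4 : 𝓞 F) * R.he⟩
  have e2 : (2 * e - 1 : 𝓞 F) ∣ ((-1 - (u - v) ^ 2 : ℤ) : 𝓞 F) := by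
    have e3 : ((-1 - (u - v) ^ 2 : ℤ) : 𝓞 F) = (-1 - ((u : 𝓞 F) + v * e) ^ 2) +
        (e + 1) * (v * (2 * u + v * e - v)) := by
      push_cast
      ring
    rw [e3]
    exact dvd_add hz (e1.mul_right _)
  have h4 : ∀ m : ℤ, (2 * e - 1 : 𝓞 F) ∣ (m : 𝓞 F) → (3 : ℤ) ∣ m := by
    intro m hm
    by_contra hcon
    have hco : IsCoprime (3 : ℤ) m := by
      have := (Int.prime_three.coprime_iff_not_dvd).2 hcon
      exact this
    obtain ⟨a, b, hab⟩ := hco
    apply R.lp.not_isUnit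
    apply isUnit_of_dvd_one
    have e4 : (a : 𝓞 F) * 3 + b * m = 1 := by exact_mod_cast hab
    have e5 := dvd_add (h3.mul_left (a : 𝓞 F)) (hm.mul_left (b : 𝓞 F))
    rwa [e4] at e5
  have h5 := h4 _ e2
  have h6 : ∀ t : ZMod 3, -1 - t ^ 2 ≠ 0 := by decide
  apply h6 ((u - v : ℤ) : ZMod 3)
  have h7 := (ZMod.intCast_zmod_eq_zero_iff_dvd (-1 - (u - v) ^ 2) 3).2 h5
  push_cast at h7 ⊢
  exact h7

include h

/-- **the main step** -/
theorem mainY (hl : ns (-1) (2 * e - 1) = 1) (hns : NSF e π c ε) :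
    MainP D (algebraMap (𝓞 F) F e) := by
  have hpid := R.pid
  have hpf := pf R h
  obtain ⟨b, hb⟩ : ∃ b, b = algebraMap (𝓞 F) F e := ⟨_, rfl⟩
  have hb2 : b ^ 2 = b - 1 := by rw [hb]; exact hbF R
  have hδ : (D : F) * (2 * b - 1) = algebraMap (𝓞 F) F (gg (rh e π) ε 1) := by
    rw [delta_gg R h, hb]
    simp only [map_mul, map_sub, map_intCast, map_ofNat, map_one]
  rw [← hb]
  intro qA qB hA hB hP
  rw [hδ]
  obtain ⟨δ, hδd⟩ : ∃ δ : F, δ = (D : F) * (2 * b - 1) := ⟨_, rfl⟩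
  have hEv : ∀ P : HeightOneSpectrum (𝓞 F),
      (∀ k, P.valuation F (algebraMap (𝓞 F) F (rh e π k)) = 1) →
      Ev (P.valuation F) qA ∧ Ev (P.valuation F) qB := by
    intro P hk
    refine evP hb2 P h.D0 ?_ hA hB (hP P)
    rw [hδ]
    unfold gg
    rw [map_mul, map_mul, map_pow, map_pow, map_neg, map_one, Valuation.map_neg, map_one, one_pow,
      one_mul, map_prod, map_prod]
    refine Finset.prod_eq_one fun i _ => ?_
    rw [map_pow, map_pow, hk i, one_pow]
  obtain ⟨sA, xA, cA⟩ := exists_gg hpf R.hu hA fun P hk => (hEv P hk).1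
  obtain ⟨sB, xB, cB⟩ := exists_gg hpf R.hu hB fun P hk => (hEv P hk).2
  have hT : ∀ k, TP ((plc (hpf.pr k)).valuation F) δ qA qB := by
    intro k
    rw [hδd]
    refine tpP hb2 (plc (hpf.pr k)) h.D0 (k := -1) ?_ hA hB (hP _)
    rw [hδ, gg_val hpf]
    rfl
  have hE := fun k => eqs hpf k (ε := ε) (hδd.trans hδ) cA cB (hT k)
  have hn0 : ns (-1) (rh e π none) = 1 := hl
  have key := pair_gen (cjF R h) hns sA (xA none) sB (xB none) (fun i => xA (some i))
    (fun i => xB (some i)) (by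
      have := (hE none).1
      rw [neg_one_l R h hl, neg_one_l R h hl, hn0] at this
      linear_combination this) (by
      have := (hE none).2
      rw [neg_one_l R h hl, neg_one_l R h hl, hn0] at this
      linear_combination this) (fun j => by
      have := (hE (some j)).1
      rw [EQ_some R h, EQ_some R h] at this
      have e1 : dg (fun i j => ns (π i) (π j)) (fun j => ns (-1) (π j))
          (fun j => ns (2 * e - 1) (π j)) ε j = ε * ns (-1) (π j) + (1 : Option ι → ZMod 2) none *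
            ns (2 * e - 1) (π j) + ∑ i ∈ univ.erase j, ns (π i) (π j) * (1 : Option ι → ZMod 2) (some i) := by
        unfold dg
        simp
      rw [e1]
      exact this) (fun j => by
      have := (hE (some j)).2
      rw [EQ_some R h, EQ_some R h] at this
      have e1 : dg (fun i j => ns (π i) (π j)) (fun j => ns (-1) (π j))
          (fun j => ns (2 * e - 1) (π j)) ε j = ε * ns (-1) (π j) + (1 : Option ι → ZMod 2) none *
            ns (2 * e - 1) (π j) + ∑ i ∈ univ.erase j, ns (π i) (π j) * (1 : Option ι → ZMod 2) (some i) := by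
        unfold dg
        simp
      rw [e1]
      exact this)
  have hxA : xA = fun _ => xA none := by
    funext o
    rcases o with _ | i
    · rfl
    · exact (key i).1
  have hxB : xB = fun _ => xB none := by
    funext o
    rcases o with _ | i
    · rfl
    · exact (key i).2
  have h3A := (hE none).1
  have h3B := (hE none).2
  rw [neg_one_l R h hl, neg_one_l R h hl, hn0] at h3A h3B
  -- the four cases
  have c1 : SqE (-1 : F) (algebraMap (𝓞 F) F (gg (rh e π) 1 0)) := by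
    rw [gg_neg, show ZMod.val (1 : ZMod 2) = 1 from rfl, pow_one, map_neg, map_one]
    exact SqE.refl _
  have c0 : SqE (1 : F) (algebraMap (𝓞 F) F (gg (rh e π) 0 0)) := by
    rw [gg_zero, map_one]; exact SqE.refl _
  have cn : SqE (-(algebraMap (𝓞 F) F (gg (rh e π) ε 1))) (algebraMap (𝓞 F) F (gg (rh e π) (1 + ε) 1)) := by
    have := (c1.mul (SqE.refl (algebraMap (𝓞 F) F (gg (rh e π) ε 1)))).trans (gg_sqE hpf 1 ε 0 1)
    rwa [neg_one_mul, zero_add] at this
  rcases zmod2_cases (xA none) with hA0 | hA1 <;> rcases zmod2_cases (xB none) with hB0 | hB1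
  · left
    rw [hA0, hB0] at h3A h3B
    have k1 : sA = 0 := by linear_combination h3A
    have k2 : sB = 0 := by linear_combination h3B
    rw [hxA, hA0, k1] at cA
    rw [hxB, hB0, k2] at cB
    exact ⟨cA.trans c0.symm, cB.trans c0.symm⟩
  · right; right; left
    rw [hA0, hB1] at h3A h3B
    have k1 : sA = 1 := by linear_combination h3A - two_eq (1 : ZMod 2)
    have k2 : sB = ε := by linear_combination h3B - two_eq ε
    rw [hxA, hA0, k1] at cA
    rw [hxB, hB1, k2] at cB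
    exact ⟨cA.trans c1.symm, cB⟩
  · right; right; right
    rw [hA1, hB0] at h3A h3B
    have k1 : sA = 1 + ε := by linear_combination h3A - two_eq ε - two_eq (1 : ZMod 2)
    have k2 : sB = 1 := by linear_combination h3B - two_eq (1 : ZMod 2)
    rw [hxA, hA1, k1] at cA
    rw [hxB, hB0, k2] at cB
    exact ⟨cA.trans cn.symm, cB.trans c1.symm⟩
  · right; left
    rw [hA1, hB1] at h3A h3B
    have k1 : sA = ε := by linear_combination h3A - two_eq ε - two_eq (1 : ZMod 2)
    have k2 : sB = 1 + ε := by linear_combination h3B - two_eq ε - two_eq (1 : ZMod 2)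
    rw [hxA, hA1, k1] at cA
    rw [hxB, hB1, k2] at cB
    exact ⟨cA, cB.trans cn.symm⟩

/-- the hypotheses of the descent -/
theorem myY (hl : ns (-1) (2 * e - 1) = 1) (hns : NSF e π c ε) :
    MY D (algebraMap (𝓞 F) F e) := by
  have hpid := R.pid
  have hpf := pf R h
  refine ⟨h.D0, mainY R h hl hns, (plc (hpf.pr none)).valuation F, -1, ?_⟩
  have hδ : (D : F) * (2 * algebraMap (𝓞 F) F e - 1) = algebraMap (𝓞 F) F (gg (rh e π) ε 1) := by
    rw [delta_gg R h]
    simp only [map_mul, map_sub, map_intCast, map_ofNat, map_one]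
  rw [hδ, gg_val hpf]
  rfl

end mainthm

end Pool.Agent.L0h23.FZ
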