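import Pool.Agent.L0h23.FZ.Sel
import Pool.Agent.Y698.Hp

/-!
# Halves of the points of order two
-/

set_option autoImplicit false
set_option linter.unusedSectionVars false

attribute [-instance] DivisionRing.toRatAlgebra

namespace Pool.Agent.L0h23.FZ

open Pool.Agent.Y698
open WeierstrassCurve IsDedekindDomain NumberField WithZero

open Pool.Agent.TH841.SH.D (Pt act Gal Coch IsCoc IsCob LocTriv)
open Pool.Agent.TH841.NF.D (IsShaCoc)
open Pool.Agent.TH841.SH (IsR IsX gf isX_zero isX_some not_isX)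
open Pool.Agent.TH841.NF (act_act act_id act_some' pt_ext pt_inj coc_fin)

open scoped Classical

section

variable {K : Type} [Field K] [NumberField K] {W : WeierstrassCurve K}

/-- the sign of a square root -/
def Sgn (W : WeierstrassCurve K) (e G : Cb K) (R : Pt W (Cb K)) (σ : Gal K) : Prop :=
  (IsX (W.baseChange (Cb K)) e (act W σ.toAlgHom R - R) → σ G = G) ∧
  (¬ IsX (W.baseChange (Cb K)) e (act W σ.toAlgHom R - R) → σ G = -G)

lemma neg_ne_self {z : Cb K} (hz : z ≠ 0) : -z ≠ z := by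
  intro h0
  apply hz
  have h3 : (2 : Cb K) * z = 0 := by linear_combination -h0
  exact (mul_eq_zero.1 h3).resolve_left two_ne_zero

lemma Sgn.iff {e G : Cb K} {R : Pt W (Cb K)} {σ : Gal K}
    (h : Sgn W e G R σ) (hG : G ≠ 0) :
    σ G = G ↔ IsX (W.baseChange (Cb K)) e (act W σ.toAlgHom R - R) := by
  refine ⟨fun h1 => ?_, h.1⟩
  by_contra hcon
  have h2 := h.2 hcon
  rw [h1] at h2
  exact neg_ne_self hG h2.symm

/-- the product of two square roots belongs to the third root -/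
lemma Sgn.mul {a b c GB GC : Cb K} {R : Pt W (Cb K)} {σ : Gal K}
    (hIs : IsR (W.baseChange (Cb K)) a b c) (hab : a ≠ b) (hac : a ≠ c) (hbc : b ≠ c)
    (hT : (act W σ.toAlgHom R - R) + (act W σ.toAlgHom R - R) = 0)
    (hB : Sgn W b GB R σ) (hC : Sgn W c GC R σ) : Sgn W a (GB * GC) R σ := by
  unfold Sgn
  rw [isX_first hIs two_ne_zero hab hac hbc hT, map_mul]
  by_cases kB : IsX (W.baseChange (Cb K)) b (act W σ.toAlgHom R - R) <;>
    by_cases kC : IsX (W.baseChange (Cb K)) c (act W σ.toAlgHom R - R)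
  · rw [hB.1 kB, hC.1 kC]
    exact ⟨fun _ => rfl, fun h => absurd ⟨fun _ => kC, fun _ => kB⟩ h⟩
  · rw [hB.1 kB, hC.2 kC, mul_neg]
    exact ⟨fun h => absurd (h.1 kB) kC, fun _ => rfl⟩
  · rw [hB.2 kB, hC.1 kC, neg_mul]
    exact ⟨fun h => absurd (h.2 kC) kB, fun _ => rfl⟩
  · rw [hB.2 kB, hC.2 kC, neg_mul_neg]
    exact ⟨fun _ => rfl, fun h => absurd ⟨fun h' => absurd h' kB, fun h' => absurd h' kC⟩ h⟩

/-- the half of a point of order two -/
lemma halfpt {a b c : Cb K} (hIs : IsR (W.baseChange (Cb K)) a b c) (hab : a ≠ b) (hac : a ≠ c)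
    (hbc : b ≠ c) {x0 : Cb K} (hn0 : (W.baseChange (Cb K)).toAffine.Nonsingular x0 0)
    (R : Pt W (Cb K))
    (hR : R + R = (Affine.Point.some x0 0 hn0 : (W.baseChange (Cb K)).toAffine.Point)) :
    ∃ G : Cb K, G ^ 2 = x0 - a ∧
      (∀ φ : Cb K →ₐ[K] Cb K, φ a = a → φ b = b → φ c = c → act W φ R = R → φ G = G) ∧
      ∀ σ : Gal K, σ a = a → σ b = b → σ c = c →
        (act W σ.toAlgHom R - R) + (act W σ.toAlgHom R - R) = 0 → Sgn W a G R σ := by
  have h2 : (2 : Cb K) ≠ 0 := two_ne_zero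
  have hadd : ∀ σ : Gal K, R + (act W σ.toAlgHom R - R) = act W σ.toAlgHom R :=
    fun σ => add_sub_cancel _ _
  rcases R with _ | ⟨u, v, hn⟩
  · exfalso
    have h3 : (0 : Pt W (Cb K)) = (Affine.Point.some x0 0 hn0 :
      (W.baseChange (Cb K)).toAffine.Point) := (add_zero (0 : Pt W (Cb K))).symm.trans hR
    exact Affine.Point.some_ne_zero _ h3.symm
  have hv : v ≠ 0 := by
    intro hv
    have h3 := (hIs.add_self h2 hn).2 hv
    have h4 : (0 : (W.baseChange (Cb K)).toAffine.Point) = Affine.Point.some x0 0 hn0 :=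
      h3.symm.trans hR
    exact Affine.Point.some_ne_zero _ h4.symm
  have hR' : (Affine.Point.some u v hn : (W.baseChange (Cb K)).toAffine.Point) + .some u v hn =
    .some x0 0 hn0 := hR
  obtain ⟨X, Y, hn', e1, hX0⟩ := hIs.dup h2 hn hv
  rw [hR', Affine.Point.some.injEq] at e1
  obtain ⟨rfl, rfl⟩ := e1
  refine ⟨gf (W.baseChange (Cb K)) a b c (.some u v hn), hX0.symm,
    fun φ ha hb hc hRφ => ?_, fun σ sa sb sc hT2 => ?_⟩
  · rw [show φ (gf (W.baseChange (Cb K)) a b c (.some u v hn)) = _ from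
      act_gf' W φ ha hb hc (.some u v hn)]
    erw [hRφ]
  · have e1 : σ (gf (W.baseChange (Cb K)) a b c (.some u v hn)) =
        gf (W.baseChange (Cb K)) a b c (act W σ.toAlgHom (.some u v hn)) :=
      act_gf' W σ.toAlgHom sa sb sc (.some u v hn)
    obtain ⟨u', v', hn', e2, hv', h3, h4⟩ := hIs.sign h2 hab hac hbc hn hv hT2
    have e3 : @HAdd.hAdd (Pt W (Cb K)) (Pt W (Cb K)) _ _ (Affine.Point.some u v hn)
      (act W σ.toAlgHom (.some u v hn) - .some u v hn : Pt W (Cb K)) =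
      (Affine.Point.some u' v' hn' : (W.baseChange (Cb K)).toAffine.Point) := e2
    have e4 := hadd σ
    have e5 := e3.symm.trans e4
    unfold Sgn
    rw [e1]
    constructor
    · intro h5
      have h6 := h3 h5
      erw [e5] at h6
      exact h6
    · intro h5
      have h6 := h4 h5
      erw [e5] at h6
      exact h6

end

section

variable {D : ℤ} {K : Type} [Field K] [NumberField K]

/-- the half of a point of order two, on `y² = x³ + D³` -/
lemma halfY (hD0 : D ≠ 0) {c : Cb K} (hc : c ^ 2 = c - 1) {x0 : Cb K}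
    (hn0 : ((WY K D).baseChange (Cb K)).toAffine.Nonsingular x0 0)
    (R : Pt (WY K D) (Cb K))
    (hR : R + R = (Affine.Point.some x0 0 hn0 :
      ((WY K D).baseChange (Cb K)).toAffine.Point)) :
    ∃ G0 GA GB : Cb K, G0 ^ 2 = x0 - ro (Cb K) D ∧ GA ^ 2 = x0 - ra D c ∧ GB ^ 2 = x0 - rb D c ∧
      (∀ φ : Cb K →ₐ[K] Cb K, φ c = c → act (WY K D) φ R = R →
        φ G0 = G0 ∧ φ GA = GA ∧ φ GB = GB) ∧
      ∀ σ : Gal K, σ c = c → (act (WY K D) σ.toAlgHom R - R) + (act (WY K D) σ.toAlgHom R - R) = 0 ∧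
        Sgn (WY K D) (ro (Cb K) D) G0 R σ ∧ Sgn (WY K D) (ra D c) GA R σ ∧
          Sgn (WY K D) (rb D c) GB R σ := by
  have hIs := isRY (K := K) hc D
  obtain ⟨n1, n2, n3⟩ := rab_ne hD0 hc
  obtain ⟨G0, g0, f0, s0⟩ := halfpt hIs n1 n2 n3 hn0 R hR
  obtain ⟨GA, gA, fA, sA⟩ := halfpt hIs.rot n3 n1.symm n2.symm hn0 R hR
  obtain ⟨GB, gB, fB, sB⟩ := halfpt hIs.rot.rot n2.symm n3.symm n1 hn0 R hR
  have m : ∀ φ : Cb K →ₐ[K] Cb K, φ c = c → φ (ro (Cb K) D) = ro (Cb K) D ∧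
      φ (ra D c) = ra D c ∧ φ (rb D c) = rb D c := by
    intro φ hφ
    obtain ⟨m0, m1, m2⟩ := map_r (φ : Cb K →+* Cb K) D c
    exact ⟨m0, m1.trans (congrArg (ra D) hφ), m2.trans (congrArg (rb D) hφ)⟩
  refine ⟨G0, GA, GB, g0, gA, gB, fun φ hφ hRφ => ?_, fun σ hσ => ?_⟩
  · obtain ⟨m0, m1, m2⟩ := m φ hφ
    exact ⟨f0 φ m0 m1 m2 hRφ, fA φ m1 m2 m0 hRφ, fB φ m2 m0 m1 hRφ⟩
  · obtain ⟨m0, m1, m2⟩ := m σ.toAlgHom hσ
    have hT : (act (WY K D) σ.toAlgHom R - R) + (act (WY K D) σ.toAlgHom R - R) = 0 := by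
      have e : ∀ A B : Pt (WY K D) (Cb K), (A - B) + (A - B) = (A + A) - (B + B) :=
        fun A B => by abel
      rw [e, ← map_add, hR]
      have h4 : @HAdd.hAdd (Pt (WY K D) (Cb K)) (Pt (WY K D) (Cb K)) _ _
          (Affine.Point.some x0 0 hn0) (Affine.Point.some x0 0 hn0) = 0 :=
        (hIs.add_self two_ne_zero hn0).2 rfl
      have h5 := tor_fixY hc hσ h4
      erw [h5]
      exact sub_self _
    exact ⟨hT, s0 σ m0 m1 m2 hT, sA σ m1 m2 m0 hT, sB σ m2 m0 m1 hT⟩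

end

end Pool.Agent.L0h23.FZ
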