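import Pool.Agent.L0h23.FZ.Cob
import Pool.Agent.Y698.Lo

/-!
# The local conditions at the places, for `y² = x³ + D³`
-/

set_option autoImplicit false
set_option linter.unusedSectionVars false

attribute [-instance] DivisionRing.toRatAlgebra

namespace Pool.Agent.L0h23.FZ

open Pool.Agent.Y698 hiding Sgn
open IsDedekindDomain NumberField WithZero

section gen

variable {F : Type*} [Field F]

/-- the pair is locally the class of a point of order two -/
def TP (w : Valuation F ℤᵐ⁰) (δ qA qB : F) : Prop :=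
  (Sq w qA ∧ Sq w qB) ∨ (Sq w (δ * qA) ∧ Sq w (-δ * qB)) ∨ (Sq w (-qA) ∧ Sq w (δ * qB)) ∨
    (Sq w (-δ * qA) ∧ Sq w (-qB))

lemma sqE_of_sq {c d w : F} (hw : w ≠ 0) (h : SqE c (d * w ^ 2)) : SqE c d :=
  h.trans ⟨w, hw, rfl⟩

/-- the points and the classes of the points of order two -/
lemma FP.red [CharZero F] {D : ℤ} (hD : D ≠ 0) {a : F} (ha : a ^ 2 = a - 1) {qA qB : F}
    (hA : qA ≠ 0) (hB : qB ≠ 0) (h : FP D a qA qB) :
    GT ((D : F) * (2 * a - 1)) qA qB ∨ ∃ x y : F, y ≠ 0 ∧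
      y ^ 2 = (x - ro F D) * (x - ra D a) * (x - rb D a) ∧
      SqE qA (x - ra D a) ∧ SqE qB (x - rb D a) := by
  obtain ⟨δ, hδ⟩ : ∃ δ : F, δ = (D : F) * (2 * a - 1) := ⟨_, rfl⟩
  rw [← hδ]
  have hD0 : (D : F) ≠ 0 := by exact_mod_cast hD
  have hδ0 : δ ≠ 0 := by
    rw [hδ]
    exact mul_ne_zero hD0 (s3_ne ha)
  have ha0 := a_ne ha
  have hb0 := a_ne (hconj ha)
  have d1 : ra D a - rb D a = δ := by rw [ra_rb, hδ]
  have d2 : ra D a - ro F D = -δ * a ^ 2 := by rw [ra_ro ha, hδ]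
  have d3 : rb D a - ro F D = δ * (1 - a) ^ 2 := by rw [rb_ro ha, hδ]
  have hAA : SqE (qA * qA) 1 := SqE.sq hA
  have hBB : SqE (qB * qB) 1 := SqE.sq hB
  rcases h with ⟨h1, h2⟩ | ⟨x, y, hxy, h0, h1, h2⟩
  · exact Or.inl (Or.inl ⟨sqE_of one_ne_zero hA (by rwa [one_mul]),
      sqE_of one_ne_zero hB (by rwa [one_mul])⟩)
  by_cases hy : y = 0
  swap
  · right
    have hxA : x - ra D a ≠ 0 := by
      intro h0
      rw [h0, mul_zero, zero_mul] at hxy
      exact hy (pow_eq_zero_iff two_ne_zero |>.1 hxy)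
    have hxB : x - rb D a ≠ 0 := by
      intro h0
      rw [h0, mul_zero] at hxy
      exact hy (pow_eq_zero_iff two_ne_zero |>.1 hxy)
    exact ⟨x, y, hy, hxy, sqE_of hxA hA h1, sqE_of hxB hB h2⟩
  left
  rw [hy, zero_pow two_ne_zero] at hxy
  rcases mul_eq_zero.1 hxy.symm with h4 | h4
  · rcases mul_eq_zero.1 h4 with h5 | h5
    · right; left
      have e1 : x - ra D a = δ * a ^ 2 := by linear_combination h5 - d2
      have e2 : x - rb D a = -δ * (1 - a) ^ 2 := by linear_combination h5 - d3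
      rw [e1] at h1
      rw [e2] at h2
      exact ⟨sqE_of_sq ha0 (sqE_of (mul_ne_zero hδ0 (pow_ne_zero 2 ha0)) hA h1),
        sqE_of_sq hb0 (sqE_of (mul_ne_zero (neg_ne_zero.2 hδ0) (pow_ne_zero 2 hb0)) hB h2)⟩
    · right; right; left
      have e1 : x - rb D a = δ := by linear_combination h5 + d1
      have e0 : x - ro F D = -δ * a ^ 2 := by linear_combination h5 + d2
      rw [e1] at h2
      rw [e0] at h0
      have k1 : SqE qB δ := sqE_of hδ0 hB h2
      have k2 : SqE (qA * qB) (-δ) := sqE_of_sq ha0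
        (sqE_of (mul_ne_zero (neg_ne_zero.2 hδ0) (pow_ne_zero 2 ha0)) (mul_ne_zero hA hB) h0)
      refine ⟨?_, k1⟩
      obtain ⟨z, hz, k1⟩ := k1
      obtain ⟨z', hz', k2⟩ := k2
      refine ⟨z' / z, div_ne_zero hz' hz, ?_⟩
      rw [k1] at k2
      field_simp
      apply mul_left_cancel₀ hδ0
      linear_combination k2
  · right; right; right
    have e1 : x - ra D a = -δ := by linear_combination h4 - d1
    have e0 : x - ro F D = δ * (1 - a) ^ 2 := by linear_combination h4 + d3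
    rw [e1] at h1
    rw [e0] at h0
    have k1 : SqE qA (-δ) := sqE_of (neg_ne_zero.2 hδ0) hA h1
    have k2 : SqE (qA * qB) δ := sqE_of_sq hb0
      (sqE_of (mul_ne_zero hδ0 (pow_ne_zero 2 hb0)) (mul_ne_zero hA hB) h0)
    refine ⟨k1, ?_⟩
    obtain ⟨z, hz, k1⟩ := k1
    obtain ⟨z', hz', k2⟩ := k2
    refine ⟨z' / z, div_ne_zero hz' hz, ?_⟩
    rw [k1] at k2
    field_simp
    apply mul_left_cancel₀ hδ0
    linear_combination -k2

variable {w : Valuation F ℤᵐ⁰}

lemma w_ab {a : F} (ha : a ^ 2 = a - 1) : w a = 1 := by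
  have h1 : w a ≤ 1 := by
    by_contra hcon
    push Not at hcon
    have h2 : w (a ^ 2) = w a := by
      rw [ha]
      exact Valuation.map_sub_eq_of_lt_left w (by rw [map_one]; exact hcon)
    rw [map_pow, pow_two] at h2
    have h3 : w a ≠ 0 := (zero_lt_one.trans hcon).ne'
    have h4 : w a = 1 := by
      have := mul_left_cancel₀ h3 (h2.trans (mul_one _).symm)
      exact this
    rw [h4] at hcon
    exact lt_irrefl _ hcon
  have h2 : w (1 - a) ≤ 1 := Valuation.map_sub_le w (by rw [map_one]) h1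
  have h3 : w a * w (1 - a) = 1 := by rw [← map_mul, ab_one ha, map_one]
  refine le_antisymm h1 ?_
  calc (1 : ℤᵐ⁰) = w a * w (1 - a) := h3.symm
    _ ≤ w a * 1 := mul_le_mul_right h2 _
    _ = w a := mul_one _

/-- a square times a unit close to one -/
lemma Sq.of_add {e d : F} (he : e ≠ 0) (h : w d < w e) : Sq w (e * (e + d)) := by
  refine ⟨e, he, ?_⟩
  have e1 : e * (e + d) - e ^ 2 = e * d := by ring
  rw [e1, map_mul, pow_two]
  exact mul_lt_mul_of_pos_left h (zero_lt_iff.2 ((Valuation.ne_zero_iff w).2 he))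

lemma Sq.cancel {e d : F} (he : e ≠ 0) (h : Sq w (e ^ 2 * d)) : Sq w d := by
  refine h.sqE ⟨e⁻¹, inv_ne_zero he, ?_⟩
  field_simp

lemma Sq.mul_sq {e d : F} (he : e ≠ 0) (h : Sq w d) : Sq w (d * e ^ 2) := h.mul (Sq.sq he)

lemma Ev.unit {d : F} (h : w d = 1) : Ev w d := ⟨1, one_ne_zero, by rw [h, map_one, one_pow]⟩

/-- three factors with unit differences -/
lemma ev_of_three {X Y Z y : F} (hX : X ≠ 0) (hy : y ≠ 0) (h : y ^ 2 = X * Y * Z)
    (hXY : w (X - Y) = 1) (hXZ : w (X - Z) = 1) : Ev w X := by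
  rcases lt_trichotomy (w X) 1 with h1 | h1 | h1
  · have h2 : w Y = 1 := by
      have e : Y = X - (X - Y) := by ring
      rw [e, Valuation.map_sub_eq_of_lt_right w (by rw [hXY]; exact h1), hXY]
    have h3 : w Z = 1 := by
      have e : Z = X - (X - Z) := by ring
      rw [e, Valuation.map_sub_eq_of_lt_right w (by rw [hXZ]; exact h1), hXZ]
    refine ⟨y, hy, ?_⟩
    rw [← map_pow, h, map_mul, map_mul, h2, h3, mul_one, mul_one]
  · exact Ev.unit h1
  · have h2 : w Y = w X := by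
      have e : Y = X - (X - Y) := by ring
      rw [e, Valuation.map_sub_eq_of_lt_left w (by rw [hXY]; exact h1)]
    have h3 : w Z = w X := by
      have e : Z = X - (X - Z) := by ring
      rw [e, Valuation.map_sub_eq_of_lt_left w (by rw [hXZ]; exact h1)]
    refine ⟨y / X, div_ne_zero hy hX, ?_⟩
    rw [map_div₀, div_pow, ← map_pow w y 2, h, map_mul, map_mul, h2, h3]
    have h4 : w X ≠ 0 := (Valuation.ne_zero_iff w).2 hX
    field_simp

lemma Ev.of_gt {δ qA qB : F} (hδ : w δ = 1) (h : GT δ qA qB) : Ev w qA ∧ Ev w qB := by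
  have k : ∀ {q d : F}, SqE q d → w d = 1 → Ev w q := fun h h1 => (Ev.unit h1).sqE h
  have hn : w (-δ) = 1 := by rw [Valuation.map_neg, hδ]
  have h1 : w (-1 : F) = 1 := by rw [Valuation.map_neg, map_one]
  rcases h with ⟨a, b⟩ | ⟨a, b⟩ | ⟨a, b⟩ | ⟨a, b⟩
  · exact ⟨k a (map_one w), k b (map_one w)⟩
  · exact ⟨k a hδ, k b hn⟩
  · exact ⟨k a h1, k b hδ⟩
  · exact ⟨k a hn, k b h1⟩

/-- the places where the differences of the roots are units -/
theorem ev_FP [CharZero F] {D : ℤ} (hD : D ≠ 0) {a : F} (ha : a ^ 2 = a - 1) {qA qB : F}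
    (hA : qA ≠ 0) (hB : qB ≠ 0) (hδ : w ((D : F) * (2 * a - 1)) = 1) (h : FP D a qA qB) :
    Ev w qA ∧ Ev w qB := by
  rcases h.red hD ha hA hB with h | ⟨x, y, hy, hxy, h1, h2⟩
  · exact Ev.of_gt hδ h
  have wa := w_ab (w := w) ha
  have wb := w_ab (w := w) (hconj ha)
  have d1 : w (ra D a - rb D a) = 1 := by rw [ra_rb, hδ]
  have d2 : w (ra D a - ro F D) = 1 := by
    rw [ra_ro ha, map_mul, Valuation.map_neg, hδ, map_pow, wa]; simp
  have d3 : w (rb D a - ro F D) = 1 := by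
    rw [rb_ro ha, map_mul, hδ, map_pow, wb]; simp
  have hxA : x - ra D a ≠ 0 := by
    intro h0
    rw [h0, mul_zero, zero_mul] at hxy
    exact hy (pow_eq_zero_iff two_ne_zero |>.1 hxy)
  have hxB : x - rb D a ≠ 0 := by
    intro h0
    rw [h0, mul_zero] at hxy
    exact hy (pow_eq_zero_iff two_ne_zero |>.1 hxy)
  constructor
  · refine (ev_of_three (Y := x - ro F D) (Z := x - rb D a) hxA hy (by rw [hxy]; ring) ?_ ?_).sqE h1
    · rw [← d2, ← Valuation.map_neg]; congr 1; ring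
    · rw [← d1, ← Valuation.map_neg]; congr 1; ring
  · refine (ev_of_three (Y := x - ro F D) (Z := x - ra D a) hxB hy (by rw [hxy]; ring) ?_ ?_).sqE h2
    · rw [← d3, ← Valuation.map_neg]; congr 1; ring
    · rw [← d1]; congr 1; ring

lemma TP.of_gt {δ qA qB : F} (hδ : δ ≠ 0) (h : GT δ qA qB) : TP w δ qA qB := by
  have k1 : ∀ {q : F}, SqE q 1 → Sq w q := fun h => by
    have := (Sq.sq (w := w) (one_ne_zero (α := F))).sqE (d := _) (by rwa [one_pow])
    exact this
  have k : ∀ {q d : F}, d ≠ 0 → SqE q d → Sq w (d * q) := by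
    intro q d hd h
    obtain ⟨z, hz, rfl⟩ := h
    have e : d * (d * z ^ 2) = (d * z) ^ 2 := by ring
    rw [e]
    exact Sq.sq (mul_ne_zero hd hz)
  rcases h with ⟨a, b⟩ | ⟨a, b⟩ | ⟨a, b⟩ | ⟨a, b⟩
  · exact Or.inl ⟨k1 a, k1 b⟩
  · exact Or.inr (Or.inl ⟨k hδ a, k (neg_ne_zero.2 hδ) b⟩)
  · refine Or.inr (Or.inr (Or.inl ⟨?_, k hδ b⟩))
    have := k (neg_ne_zero.2 one_ne_zero) a
    rwa [neg_one_mul] at this
  · refine Or.inr (Or.inr (Or.inr ⟨k (neg_ne_zero.2 hδ) a, ?_⟩))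
    have := k (neg_ne_zero.2 one_ne_zero) b
    rwa [neg_one_mul] at this

/-- one factor is small -/
lemma sq_small {X Y Z y e f : F} (hy : y ≠ 0) (h : y ^ 2 = X * Y * Z) (he : e ≠ 0) (hf : f ≠ 0)
    (hY : Y = e + X) (hZ : Z = f + X) (h1 : w X < w e) (h2 : w X < w f) :
    Sq w (e * Y) ∧ Sq w (f * Z) ∧ Sq w (e * f * X) := by
  have k1 : Sq w (e * Y) := by rw [hY]; exact Sq.of_add he h1
  have k2 : Sq w (f * Z) := by rw [hZ]; exact Sq.of_add hf h2
  refine ⟨k1, k2, ?_⟩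
  have k3 : Sq w (e * f * X * (e * Y * (f * Z))) := by
    have e1 : e * f * X * (e * Y * (f * Z)) = (e * f * y) ^ 2 := by
      rw [mul_pow, h]; ring
    rw [e1]
    exact Sq.sq (mul_ne_zero (mul_ne_zero he hf) hy)
  exact k3.of_mul (k1.mul k2)

/-- the odd places where the differences of the roots have the same odd valuation -/
theorem tp_FP [CharZero F] {D : ℤ} (hD : D ≠ 0) {a : F} (ha : a ^ 2 = a - 1) {qA qB : F}
    (hA : qA ≠ 0) (hB : qB ≠ 0) {k : ℤ} (hδ : w ((D : F) * (2 * a - 1)) = exp (2 * k + 1))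
    (h : FP D a qA qB) : TP w ((D : F) * (2 * a - 1)) qA qB := by
  have hD0 : (D : F) ≠ 0 := by exact_mod_cast hD
  rcases h.red hD ha hA hB with h | ⟨x, y, hy, hxy, h1, h2⟩
  · exact TP.of_gt (mul_ne_zero hD0 (s3_ne ha)) h
  obtain ⟨δ, hδd⟩ : ∃ δ : F, δ = (D : F) * (2 * a - 1) := ⟨_, rfl⟩
  rw [← hδd] at hδ ⊢
  have hδ0 : δ ≠ 0 := by
    rw [hδd]
    exact mul_ne_zero hD0 (s3_ne ha)
  have ha0 := a_ne ha
  have hb0 := a_ne (hconj ha)
  have wa := w_ab (w := w) ha
  have wb := w_ab (w := w) (hconj ha)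
  obtain ⟨X, hX⟩ : ∃ X, X = x - ra D a := ⟨_, rfl⟩
  obtain ⟨Y, hY⟩ : ∃ Y, Y = x - rb D a := ⟨_, rfl⟩
  obtain ⟨Z, hZ⟩ : ∃ Z, Z = x - ro F D := ⟨_, rfl⟩
  have d1 : Y = δ + X := by rw [hX, hY, hδd, ← ra_rb]; ring
  have d2 : Z = -δ * a ^ 2 + X := by rw [hX, hZ, hδd, ← ra_ro ha]; ring
  have d3 : Z = δ * (1 - a) ^ 2 + Y := by rw [hY, hZ, hδd, ← rb_ro ha]; ring
  rw [← hX] at h1
  rw [← hY] at h2
  rw [← hX, ← hY, ← hZ] at hxy
  have hX0 : X ≠ 0 := by
    rintro h0
    rw [h0, mul_zero, zero_mul] at hxy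
    exact hy (pow_eq_zero_iff two_ne_zero |>.1 hxy)
  have hY0 : Y ≠ 0 := by
    rintro h0
    rw [h0, mul_zero] at hxy
    exact hy (pow_eq_zero_iff two_ne_zero |>.1 hxy)
  have hZ0 : Z ≠ 0 := by
    rintro h0
    rw [h0, zero_mul, zero_mul] at hxy
    exact hy (pow_eq_zero_iff two_ne_zero |>.1 hxy)
  have wA : w (-δ * a ^ 2) = w δ := by rw [map_mul, Valuation.map_neg, map_pow, wa]; simp
  have wB : w (δ * (1 - a) ^ 2) = w δ := by rw [map_mul, map_pow, wb]; simp
  have nA : -δ * a ^ 2 ≠ 0 := mul_ne_zero (neg_ne_zero.2 hδ0) (pow_ne_zero 2 ha0)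
  have nB : δ * (1 - a) ^ 2 ≠ 0 := mul_ne_zero hδ0 (pow_ne_zero 2 hb0)
  -- transport along the classes
  have tA : ∀ {c : F}, Sq w (c * X) → Sq w (c * qA) := fun h => h.sqE ((SqE.refl _).mul h1)
  have tB : ∀ {c : F}, Sq w (c * Y) → Sq w (c * qB) := fun h => h.sqE ((SqE.refl _).mul h2)
  by_cases hbig : w δ < w X
  · -- all the classes are trivial
    left
    have k1 : Sq w (X * Y) := by
      rw [d1, add_comm]
      exact Sq.of_add hX0 hbig
    have k2 : Sq w (X * Z) := by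
      rw [d2, add_comm]
      exact Sq.of_add hX0 (by rw [wA]; exact hbig)
    have k3 : Sq w (X * (X ^ 2 * y ^ 2)) := by
      have e1 : X * (X ^ 2 * y ^ 2) = (X * Y) * (X * Z) * X ^ 2 := by rw [hxy]; ring
      rw [e1]
      exact (k1.mul k2).mul (Sq.sq hX0)
    have k4 : Sq w X := by
      refine k3.of_mul ?_
      exact (Sq.sq hX0).mul (Sq.sq hy)
    have k5 : Sq w Y := by
      rw [mul_comm] at k1
      exact k1.of_mul k4
    have := tA (c := 1) (by rwa [one_mul])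
    have h6 := tB (c := 1) (by rwa [one_mul])
    rw [one_mul] at this h6
    exact ⟨this, h6⟩
  push Not at hbig
  have wY : w Y ≤ w δ := by rw [d1]; exact Valuation.map_add_le w le_rfl hbig
  have wZ : w Z ≤ w δ := by rw [d2]; exact Valuation.map_add_le w wA.le hbig
  rcases hbig.lt_or_eq with hXs | hXs
  · right; right; left
    obtain ⟨k1, k2, k3⟩ := sq_small hy (show y ^ 2 = X * Y * Z by rw [hxy]; ring) hδ0 nA d1 d2 hXs
      (by rw [wA]; exact hXs)
    refine ⟨?_, tB k1⟩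
    have e1 : δ * (-δ * a ^ 2) * X = (δ * a) ^ 2 * (-1 * X) := by ring
    rw [e1] at k3
    have := tA (Sq.cancel (mul_ne_zero hδ0 ha0) k3)
    rwa [neg_one_mul] at this
  rcases wY.lt_or_eq with hYs | hYs
  · right; right; right
    obtain ⟨k1, k2, k3⟩ := sq_small hy (show y ^ 2 = Y * X * Z by rw [hxy]; ring)
      (neg_ne_zero.2 hδ0) nB (by rw [d1]; ring) d3 (by rw [Valuation.map_neg]; exact hYs)
      (by rw [wB]; exact hYs)
    refine ⟨tA k1, ?_⟩
    have e1 : -δ * (δ * (1 - a) ^ 2) * Y = (δ * (1 - a)) ^ 2 * (-1 * Y) := by ring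
    rw [e1] at k3
    have := tB (Sq.cancel (mul_ne_zero hδ0 hb0) k3)
    rwa [neg_one_mul] at this
  rcases wZ.lt_or_eq with hZs | hZs
  · right; left
    obtain ⟨k1, k2, k3⟩ := sq_small hy hxy
      (neg_ne_zero.2 nA) (neg_ne_zero.2 nB) (by linear_combination -d2) (by linear_combination -d3)
      (by rw [Valuation.map_neg, wA]; exact hZs) (by rw [Valuation.map_neg, wB]; exact hZs)
    constructor
    · have e1 : -(-δ * a ^ 2) * X = a ^ 2 * (δ * X) := by ring
      rw [e1] at k1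
      exact tA (Sq.cancel ha0 k1)
    · have e1 : -(δ * (1 - a) ^ 2) * Y = (1 - a) ^ 2 * (-δ * Y) := by ring
      rw [e1] at k2
      exact tB (Sq.cancel hb0 k2)
  · exfalso
    have h5 := congrArg w hxy
    rw [map_pow, map_mul, map_mul, hXs, hYs, hZs, hδ] at h5
    obtain ⟨m, hm⟩ := vexp (w := w) hy
    rw [hm, ← exp_nsmul, ← exp_add, ← exp_add, exp_inj] at h5
    simp only [nsmul_eq_mul, Nat.cast_ofNat] at h5
    omega

end gen

section place
variable {F : Type} [Field F] [NumberField F] {b : F} (hb : b ^ 2 = b - 1)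

include hb in
/-- the places where `D √-3` is a unit -/
theorem evP (P : HeightOneSpectrum (𝓞 F)) {D : ℤ} (hD0 : D ≠ 0)
    (hδ : P.valuation F ((D : F) * (2 * b - 1)) = 1) {qA qB : F} (hA : qA ≠ 0) (hB : qB ≠ 0)
    (h : FP D (algebraMap F (P.adicCompletion F) b) (algebraMap F (P.adicCompletion F) qA)
      (algebraMap F (P.adicCompletion F) qB)) : Ev (P.valuation F) qA ∧ Ev (P.valuation F) qB := by
  have hch := charC P
  have haE : (algebraMap F (P.adicCompletion F) b) ^ 2 =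
      algebraMap F (P.adicCompletion F) b - 1 := by
    rw [← map_pow, hb, map_sub, map_one]
  have hA' : algebraMap F (P.adicCompletion F) qA ≠ 0 := by rw [Ne, map_eq_zero]; exact hA
  have hB' : algebraMap F (P.adicCompletion F) qB ≠ 0 := by rw [Ne, map_eq_zero]; exact hB
  have e : (D : P.adicCompletion F) * (2 * algebraMap F (P.adicCompletion F) b - 1) =
      algebraMap F _ ((D : F) * (2 * b - 1)) := by
    rw [map_mul, map_sub, map_mul, map_intCast, map_ofNat, map_one]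
  have h8 := ev_FP (w := (Valued.v : Valuation (P.adicCompletion F) ℤᵐ⁰)) hD0 haE hA' hB'
    (by rw [e, valued_algebraMap, hδ]) h
  exact ⟨h8.1.down P, h8.2.down P⟩

include hb in
/-- the places where `D √-3` has an odd valuation -/
theorem tpP (P : HeightOneSpectrum (𝓞 F)) {D : ℤ} (hD0 : D ≠ 0) {k : ℤ}
    (hδ : P.valuation F ((D : F) * (2 * b - 1)) = exp (2 * k + 1)) {qA qB : F} (hA : qA ≠ 0)
    (hB : qB ≠ 0)
    (h : FP D (algebraMap F (P.adicCompletion F) b) (algebraMap F (P.adicCompletion F) qA)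
      (algebraMap F (P.adicCompletion F) qB)) :
    TP (P.valuation F) ((D : F) * (2 * b - 1)) qA qB := by
  have hch := charC P
  have haE : (algebraMap F (P.adicCompletion F) b) ^ 2 =
      algebraMap F (P.adicCompletion F) b - 1 := by
    rw [← map_pow, hb, map_sub, map_one]
  have hA' : algebraMap F (P.adicCompletion F) qA ≠ 0 := by rw [Ne, map_eq_zero]; exact hA
  have hB' : algebraMap F (P.adicCompletion F) qB ≠ 0 := by rw [Ne, map_eq_zero]; exact hB
  have e : (D : P.adicCompletion F) * (2 * algebraMap F (P.adicCompletion F) b - 1) =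
      algebraMap F _ ((D : F) * (2 * b - 1)) := by
    rw [map_mul, map_sub, map_mul, map_intCast, map_ofNat, map_one]
  have h8 := tp_FP (w := (Valued.v : Valuation (P.adicCompletion F) ℤᵐ⁰)) (k := k) hD0 haE hA' hB'
    (by rw [e, valued_algebraMap, hδ]) h
  rw [e] at h8
  unfold TP at h8 ⊢
  simp only [← map_neg, ← map_mul] at h8
  rcases h8 with ⟨a, b⟩ | ⟨a, b⟩ | ⟨a, b⟩ | ⟨a, b⟩
  · exact Or.inl ⟨a.down P, b.down P⟩
  · exact Or.inr (Or.inl ⟨a.down P, b.down P⟩)
  · exact Or.inr (Or.inr (Or.inl ⟨a.down P, b.down P⟩))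
  · exact Or.inr (Or.inr (Or.inr ⟨a.down P, b.down P⟩))

end place

end Pool.Agent.L0h23.FZ
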